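import Pool.Agent.Helper35.SHQ.Sheet

/-! Row SUM of SHQ (helper74): the sums over the words of given length. -/

set_option autoImplicit false

namespace SHQ
open scoped ENNReal

namespace S74

/-- the words of length `n` -/
def Ls : ℕ → Finset (List Bool)
  | 0 => {[]}
  | n + 1 => (Ls n).image (fun y => true :: y) ∪ (Ls n).image (fun y => false :: y)

theorem Ls_length : ∀ (n : ℕ) (y : List Bool), y ∈ Ls n → y.length = n := by
  intro n
  induction n with
  | zero =>
    intro y hy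
    have : y = [] := Finset.mem_singleton.1 hy
    rw [this]
    rfl
  | succ n ih =>
    intro y hy
    rcases Finset.mem_union.1 hy with h | h
    · obtain ⟨x, hx, rfl⟩ := Finset.mem_image.1 h
      rw [List.length_cons, ih x hx]
    · obtain ⟨x, hx, rfl⟩ := Finset.mem_image.1 h
      rw [List.length_cons, ih x hx]

/-- the sum over the words of length `n` -/
noncomputable def S (n : ℕ) (f : List Bool → ℝ≥0∞) : ℝ≥0∞ := ∑ y ∈ Ls n, f y

theorem S_zero (f : List Bool → ℝ≥0∞) : S 0 f = f [] := Finset.sum_singleton _ _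

theorem S_succ (n : ℕ) (f : List Bool → ℝ≥0∞) :
    S (n + 1) f = S n (fun y => f (true :: y)) + S n (fun y => f (false :: y)) := by
  have hd : Disjoint ((Ls n).image (fun y => true :: y)) ((Ls n).image (fun y => false :: y)) := by
    rw [Finset.disjoint_left]
    intro y h1 h2
    obtain ⟨x, _, rfl⟩ := Finset.mem_image.1 h1
    obtain ⟨x', _, h⟩ := Finset.mem_image.1 h2
    have := (List.cons.inj h).1
    exact Bool.false_ne_true this
  change ∑ y ∈ (Ls n).image (fun y => true :: y) ∪ (Ls n).image (fun y => false :: y), f y = _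
  rw [Finset.sum_union hd, Finset.sum_image, Finset.sum_image]
  · rfl
  · intro a _ b _ h
    exact (List.cons.inj h).2
  · intro a _ b _ h
    exact (List.cons.inj h).2

theorem S_add (n : ℕ) (f g : List Bool → ℝ≥0∞) : S n (fun y => f y + g y) = S n f + S n g :=
  Finset.sum_add_distrib

theorem S_mul (n : ℕ) (c : ℝ≥0∞) (f : List Bool → ℝ≥0∞) : S n (fun y => c * f y) = c * S n f :=
  (Finset.mul_sum _ _ _).symm

theorem S_congr (n : ℕ) {f g : List Bool → ℝ≥0∞} (h : ∀ y, f y = g y) : S n f = S n g :=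
  Finset.sum_congr rfl fun y _ => h y

theorem S_ite (n : ℕ) (f : List Bool → ℝ≥0∞) :
    S n (fun y => if true ∈ y then 0 else f y) = f (List.replicate n false) := by
  induction n generalizing f with
  | zero =>
    rw [S_zero]
    simp
  | succ n ih =>
    rw [S_succ]
    have h1 : S n (fun y => if true ∈ true :: y then 0 else f (true :: y)) = 0 := by
      unfold S
      refine Finset.sum_eq_zero fun y _ => ?_
      simp
    have h2 : S n (fun y => if true ∈ false :: y then 0 else f (false :: y)) =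
        S n (fun y => if true ∈ y then 0 else (fun y => f (false :: y)) y) := by
      refine S_congr n fun y => ?_
      simp
    rw [h1, h2, ih, zero_add]
    rfl

/-- the partial sums are below the series -/
theorem S_le (z : ℝ≥0∞) (Y : ℕ) (f : List Bool → ℝ≥0∞) :
    ∑ n ∈ Finset.range Y, z ^ (n + 1) * S n f ≤ ∑' y : List Bool, z ^ (y.length + 1) * f y := by
  have h1 : ∑ n ∈ Finset.range Y, z ^ (n + 1) * S n f =
      ∑ y ∈ (Finset.range Y).biUnion Ls, z ^ (y.length + 1) * f y := by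
    rw [Finset.sum_biUnion]
    · refine Finset.sum_congr rfl fun n _ => ?_
      unfold S
      rw [Finset.mul_sum]
      refine Finset.sum_congr rfl fun y hy => ?_
      rw [Ls_length n y hy]
    · intro a _ b _ hab
      change Disjoint (Ls a) (Ls b)
      rw [Finset.disjoint_left]
      intro y hy hy'
      exact hab ((Ls_length a y hy).symm.trans (Ls_length b y hy'))
  rw [h1]
  exact ENNReal.sum_le_tsum _

/-! the letters -/

theorem th_ne_p {p g : Fin 3} (h : g ≠ p) : th p g ≠ p := by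
  revert p g
  decide

theorem th_ne_g {p g : Fin 3} (h : g ≠ p) : th p g ≠ g := by
  revert p g
  decide

theorem cases3 {p g : Fin 3} (h : g ≠ p) (b : Fin 3) : b = p ∨ b = g ∨ b = th p g := by
  revert p g b
  decide

theorem two3 {p g : Fin 3} (h : g ≠ p) :
    (g + 1 = p ∧ g + 2 = th p g ∧ ¬ g + 2 = p) ∨ (g + 2 = p ∧ g + 1 = th p g ∧ ¬ g + 1 = p) := by
  revert p g
  decide

theorem w_self (o : Om) (a : Fin 3) : w o a a = o.be := if_pos rfl

theorem w_ne (o : Om) {a b : Fin 3} (h : b ≠ a) : w o b a = o.al := if_neg h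

theorem psi_self (σ : ℝ≥0∞) (a : Fin 3) : psi σ a a = 1 := if_pos rfl

theorem psi_ne (σ : ℝ≥0∞) {a b : Fin 3} (h : b ≠ a) : psi σ a b = σ := if_neg (Ne.symm h)

theorem mem_cons_iff' (y : List Bool) : (true ∈ false :: y) ↔ true ∈ y := by
  simp

/-! the recursions -/

section
variable (o : Om) (σ : ℝ≥0∞) (n : ℕ)

/-- the words over `{p, h}` from the letter `b` -/
noncomputable def fB (p g b : Fin 3) (y : List Bool) : ℝ≥0∞ :=
  ValC o b (fix (y.map (lt p (th p g)))) (psi σ g)

noncomputable def fA (p g b : Fin 3) (y : List Bool) : ℝ≥0∞ :=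
  ValC o b (D2 p g y).1 (psi σ g)

noncomputable def fE (p g : Fin 3) (y : List Bool) : ℝ≥0∞ :=
  if true ∈ y then ValC o (th p g) (D2 p g y).2 (psi σ g) else 0

noncomputable def fC (p g : Fin 3) (y : List Bool) : ℝ≥0∞ :=
  if true ∈ y then ValC o (th p g) (fix (y.map (lt p (th p g)))) (psi σ g) else 0

noncomputable def fQ (p b : Fin 3) (y : List Bool) : ℝ≥0∞ :=
  ValC o b (fix (y.map (lt (p + 1) (p + 2)))) (psi σ p)

noncomputable def fH (b a : Fin 3) (n : ℕ) : ℝ≥0∞ :=
  ValC o b (fix (List.replicate n b)) (psi σ a)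

theorem fB_succ (p g b : Fin 3) : S (n + 1) (fB o σ p g b) =
    w o b p * S n (fB o σ p g p) + w o b (th p g) * S n (fB o σ p g (th p g)) := by
  rw [S_succ, ← S_mul, ← S_mul]
  rfl

theorem fH_succ (b a : Fin 3) : fH o σ b a (n + 1) = o.be * fH o σ b a n := by
  rw [← w_self o b]
  rfl

theorem fQ_succ (p b : Fin 3) : S (n + 1) (fQ o σ p b) =
    w o b (p + 1) * S n (fQ o σ p (p + 1)) + w o b (p + 2) * S n (fQ o σ p (p + 2)) := by
  rw [S_succ, ← S_mul, ← S_mul]
  rfl

theorem fC_succ (p g : Fin 3) (h : g ≠ p) : S (n + 1) (fC o σ p g) =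
    o.be * S n (fC o σ p g) + o.al * S n (fB o σ p g p) := by
  have h1 : S n (fun y => fC o σ p g (true :: y)) = o.al * S n (fB o σ p g p) := by
    rw [← S_mul, ← w_ne o (th_ne_p h)]
    refine S_congr n fun y => ?_
    unfold fC
    rw [if_pos (List.mem_cons_self)]
    rfl
  have h2 : S n (fun y => fC o σ p g (false :: y)) = o.be * S n (fC o σ p g) := by
    rw [← S_mul, ← w_self o (th p g)]
    refine S_congr n fun y => ?_
    unfold fC
    by_cases hy : true ∈ y
    · rw [if_pos ((mem_cons_iff' y).2 hy), if_pos hy]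
      rfl
    · rw [if_neg (fun h => hy ((mem_cons_iff' y).1 h)), if_neg hy, mul_zero]
  rw [S_succ, h1, h2, add_comm]

theorem fE_succ (p g : Fin 3) (h : g ≠ p) : S (n + 1) (fE o σ p g) =
    o.be * S n (fE o σ p g) + S n (fA o σ p g (th p g)) := by
  have h1 : S n (fun y => fE o σ p g (true :: y)) = S n (fA o σ p g (th p g)) := by
    refine S_congr n fun y => ?_
    unfold fE
    rw [if_pos (List.mem_cons_self)]
    rfl
  have h2 : S n (fun y => fE o σ p g (false :: y)) = o.be * S n (fE o σ p g) := by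
    rw [← S_mul, ← w_self o (th p g)]
    refine S_congr n fun y => ?_
    unfold fE
    by_cases hy : true ∈ y
    · rw [if_pos ((mem_cons_iff' y).2 hy), if_pos hy]
      rfl
    · rw [if_neg (fun h => hy ((mem_cons_iff' y).1 h)), if_neg hy, mul_zero]
  rw [S_succ, h1, h2, add_comm]

theorem fA_false (p g b : Fin 3) (h : g ≠ p) (y : List Bool) : fA o σ p g b (false :: y) =
    (o.ka * (fC o σ p g y + o.al * fE o σ p g y)) +
      (if true ∈ y then 0 else w o b (th p g) * fB o σ p g (th p g) y) := by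
  have hal : w o p (th p g) = o.al := w_ne o (th_ne_p h).symm
  by_cases hy : true ∈ y
  · rw [if_pos hy, add_zero]
    unfold fC fE
    rw [if_pos hy, if_pos hy]
    have e0 : fA o σ p g b (false :: y) = ValC o b (.two g
        (if g + 1 = p then .one (th p g) (D2 p g y).2 else fix (y.map (lt p (th p g))))
        (if g + 2 = p then .one (th p g) (D2 p g y).2 else fix (y.map (lt p (th p g)))))
        (psi σ g) := by
      unfold fA
      change ValC o b (if true ∈ y then _ else _) (psi σ g) = _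
      rw [if_pos hy]
    rw [e0]
    rcases two3 h with ⟨e1, e2, e3⟩ | ⟨e1, e2, e3⟩
    · rw [if_pos e1, if_neg e3]
      change o.ka * (ValC o (g + 1) (.one (th p g) (D2 p g y).2) (psi σ g) +
        ValC o (g + 2) (fix (y.map (lt p (th p g)))) (psi σ g)) = _
      rw [e1, e2]
      change o.ka * (w o p (th p g) * ValC o (th p g) (D2 p g y).2 (psi σ g) + _) = _
      rw [hal, add_comm]
    · rw [if_pos e1, if_neg e3]
      change o.ka * (ValC o (g + 1) (fix (y.map (lt p (th p g)))) (psi σ g) +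
        ValC o (g + 2) (.one (th p g) (D2 p g y).2) (psi σ g)) = _
      rw [e1, e2]
      change o.ka * (_ + w o p (th p g) * ValC o (th p g) (D2 p g y).2 (psi σ g)) = _
      rw [hal]
  · rw [if_neg hy]
    unfold fC fE
    rw [if_neg hy, if_neg hy, mul_zero, add_zero, mul_zero, zero_add]
    unfold fA
    change ValC o b (if true ∈ y then _ else _) (psi σ g) = _
    rw [if_neg hy]
    rfl

theorem fA_succ (p g b : Fin 3) (h : g ≠ p) : S (n + 1) (fA o σ p g b) =
    w o b p * S n (fA o σ p g p) + w o b (th p g) * fH o σ (th p g) g n +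
      o.ka * (S n (fC o σ p g) + o.al * S n (fE o σ p g)) := by
  have h1 : S n (fun y => fA o σ p g b (true :: y)) = w o b p * S n (fA o σ p g p) := by
    rw [← S_mul]
    rfl
  have h2 : S n (fun y => fA o σ p g b (false :: y)) =
      o.ka * (S n (fC o σ p g) + o.al * S n (fE o σ p g)) +
        w o b (th p g) * fH o σ (th p g) g n := by
    rw [S_congr n (fA_false o σ p g b h), S_add, S_mul, S_add, S_mul, S_ite]
    congr 2
    unfold fB fH
    rw [List.map_replicate]
    rfl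
  rw [S_succ, h1, h2, add_assoc, add_comm (o.ka * _) _]

end

/-! the rational numbers -/

noncomputable def cst (x : ℚ) : ℝ≥0∞ := ENNReal.ofReal (x : ℝ)

theorem cst_add {x y : ℚ} (hx : 0 ≤ x) (hy : 0 ≤ y) : cst (x + y) = cst x + cst y := by
  unfold cst
  rw [Rat.cast_add, ENNReal.ofReal_add (by exact_mod_cast hx) (by exact_mod_cast hy)]

theorem cst_mul {x y : ℚ} (hx : 0 ≤ x) : cst (x * y) = cst x * cst y := by
  unfold cst
  rw [Rat.cast_mul, ENNReal.ofReal_mul (by exact_mod_cast hx)]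

theorem cst_mono {x y : ℚ} (h : x ≤ y) : cst x ≤ cst y :=
  ENNReal.ofReal_le_ofReal (by exact_mod_cast h)

theorem cst_zero : cst 0 = 0 := by
  unfold cst
  simp

theorem cst_one : cst 1 = 1 := by
  unfold cst
  simp

theorem cst_two : cst 2 = 2 := by
  unfold cst
  simp

/-- nonnegative fields -/
structure NN (s : Stt) : Prop where
  zp : 0 ≤ s.zp
  bp : 0 ≤ s.bp
  bh : 0 ≤ s.bh
  hh : 0 ≤ s.hh
  cc : 0 ≤ s.cc
  ee : 0 ≤ s.ee
  ap : 0 ≤ s.ap
  ah : 0 ≤ s.ah
  ag : 0 ≤ s.ag
  q : 0 ≤ s.q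
  qp : 0 ≤ s.qp
  sp : 0 ≤ s.sp
  sh : 0 ≤ s.sh
  sg : 0 ≤ s.sg
  sq : 0 ≤ s.sq
  sqp : 0 ≤ s.sqp
  t : 0 ≤ s.t

theorem NN.next {s : Stt} (h : NN s) {z : ℚ} (hz : 0 < z) {r : Q3} (ha : 0 ≤ r.al)
    (hb : 0 ≤ r.be) (hk : 0 ≤ r.ka) : NN (Stt.next z r s) := by
  obtain ⟨h1, h2, h3, h4, h5, h6, h7, h8, h9, h10, h11, h12, h13, h14, h15, h16, h17⟩ := h
  refine ⟨?_, ?_, ?_, ?_, ?_, ?_, ?_, ?_, ?_, ?_, ?_, ?_, ?_, ?_, ?_, ?_, ?_⟩ <;>
    (unfold Stt.next; dsimp only; positivity)

/-- the invariant -/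
structure Inv (z σ : ℚ) (r : Q3) (k : ℕ) (s : Stt) : Prop where
  nn : NN s
  zp : cst s.zp = cst z ^ (k + 1)
  bp : ∀ p g, g ≠ p → cst s.bp = S k (fB r.om (cst σ) p g p)
  bh : ∀ p g, g ≠ p → cst s.bh = S k (fB r.om (cst σ) p g (th p g))
  hh : ∀ b a, b ≠ a → cst s.hh = fH r.om (cst σ) b a k
  cc : ∀ p g, g ≠ p → cst s.cc = S k (fC r.om (cst σ) p g)
  ee : ∀ p g, g ≠ p → cst s.ee = S k (fE r.om (cst σ) p g)
  ap : ∀ p g, g ≠ p → cst s.ap = S k (fA r.om (cst σ) p g p)
  ah : ∀ p g, g ≠ p → cst s.ah = S k (fA r.om (cst σ) p g (th p g))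
  ag : ∀ p g, g ≠ p → cst s.ag = S k (fA r.om (cst σ) p g g)
  q : ∀ p b, b ≠ p → cst s.q = S k (fQ r.om (cst σ) p b)
  qp : ∀ p, cst s.qp = S k (fQ r.om (cst σ) p p)
  sp : ∀ p g, g ≠ p → cst s.sp =
    ∑ n ∈ Finset.range k, cst z ^ (n + 1) * S n (fA r.om (cst σ) p g p)
  sh : ∀ p g, g ≠ p → cst s.sh =
    ∑ n ∈ Finset.range k, cst z ^ (n + 1) * S n (fA r.om (cst σ) p g (th p g))
  sg : ∀ p g, g ≠ p → cst s.sg =
    ∑ n ∈ Finset.range k, cst z ^ (n + 1) * S n (fA r.om (cst σ) p g g)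
  sq : ∀ p b, b ≠ p → cst s.sq =
    ∑ n ∈ Finset.range k, cst z ^ (n + 1) * S n (fQ r.om (cst σ) p b)
  sqp : ∀ p, cst s.sqp = ∑ n ∈ Finset.range k, cst z ^ (n + 1) * S n (fQ r.om (cst σ) p p)
  t : ∀ b a, b ≠ a → cst s.t = ∑ n ∈ Finset.range k, cst z ^ (n + 1) * fH r.om (cst σ) b a n

theorem inv_init (z σ : ℚ) (r : Q3) (hz : 0 < z) (hσ : 1 ≤ σ) : Inv z σ r 0 (Stt.init z σ) := by
  have h0 : (0 : ℚ) ≤ σ := by linarith
  refine ⟨⟨hz.le, h0, h0, h0, le_rfl, le_rfl, h0, h0, zero_le_one, h0, zero_le_one, le_rfl,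
    le_rfl, le_rfl, le_rfl, le_rfl, le_rfl⟩, ?_, ?_, ?_, ?_, ?_, ?_, ?_, ?_, ?_, ?_, ?_, ?_, ?_,
    ?_, ?_, ?_, ?_⟩
  · rw [zero_add, pow_one]
    rfl
  · intro p g h
    rw [S_zero]
    exact (psi_ne (cst σ) h.symm).symm
  · intro p g h
    rw [S_zero]
    exact (psi_ne (cst σ) (th_ne_g h)).symm
  · intro b a h
    exact (psi_ne (cst σ) h).symm
  · intro p g h
    rw [S_zero]
    unfold fC
    rw [if_neg (List.not_mem_nil)]
    exact cst_zero
  · intro p g h
    rw [S_zero]
    unfold fE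
    rw [if_neg (List.not_mem_nil)]
    exact cst_zero
  · intro p g h
    rw [S_zero]
    exact (psi_ne (cst σ) h.symm).symm
  · intro p g h
    rw [S_zero]
    exact (psi_ne (cst σ) (th_ne_g h)).symm
  · intro p g h
    rw [S_zero]
    exact cst_one.trans (psi_self (cst σ) g).symm
  · intro p b h
    rw [S_zero]
    exact (psi_ne (cst σ) h).symm
  · intro p
    rw [S_zero]
    exact cst_one.trans (psi_self (cst σ) p).symm
  · intro p g _
    rw [Finset.range_zero, Finset.sum_empty]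
    exact cst_zero
  · intro p g _
    rw [Finset.range_zero, Finset.sum_empty]
    exact cst_zero
  · intro p g _
    rw [Finset.range_zero, Finset.sum_empty]
    exact cst_zero
  · intro p g _
    rw [Finset.range_zero, Finset.sum_empty]
    exact cst_zero
  · intro p
    rw [Finset.range_zero, Finset.sum_empty]
    exact cst_zero
  · intro b a _
    rw [Finset.range_zero, Finset.sum_empty]
    exact cst_zero

theorem ne_one (p : Fin 3) : p ≠ p + 1 := by
  revert p
  decide

theorem ne_two (p : Fin 3) : p ≠ p + 2 := by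
  revert p
  decide

theorem ne_12 (p : Fin 3) : p + 1 ≠ p + 2 := by
  revert p
  decide

theorem cases12 {p b : Fin 3} (h : b ≠ p) : b = p + 1 ∨ b = p + 2 := by
  revert p b
  decide

theorem inv_next {z σ : ℚ} {r : Q3} {k : ℕ} {s : Stt} (hz : 0 < z) (ha : 0 ≤ r.al)
    (hb : 0 ≤ r.be) (hk : 0 ≤ r.ka) (h : Inv z σ r k s) :
    Inv z σ r (k + 1) (Stt.next z r s) := by
  have n := h.nn
  have oa : r.om.al = cst r.al := rfl
  have ob : r.om.be = cst r.be := rfl
  have ok : r.om.ka = cst r.ka := rfl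
  have hsum : ∀ (x y : ℚ) (f : ℕ → ℝ≥0∞), 0 ≤ x → 0 ≤ y →
      cst x = ∑ n ∈ Finset.range k, cst z ^ (n + 1) * f n → cst y = f k →
      cst (x + s.zp * y) = ∑ n ∈ Finset.range (k + 1), cst z ^ (n + 1) * f n := by
    intro x y f hx hy h1 h2
    rw [Finset.sum_range_succ, ← h1, ← h2, ← h.zp, cst_add hx (mul_nonneg n.zp hy),
      cst_mul n.zp]
  refine ⟨n.next hz ha hb hk, ?_, ?_, ?_, ?_, ?_, ?_, ?_, ?_, ?_, ?_, ?_, ?_, ?_, ?_, ?_, ?_, ?_⟩
  · change cst (s.zp * z) = _
    rw [cst_mul n.zp, h.zp, pow_succ (cst z) (k + 1)]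
  · intro p g hg
    change cst (r.be * s.bp + r.al * s.bh) = _
    rw [cst_add (mul_nonneg hb n.bp) (mul_nonneg ha n.bh), cst_mul hb, cst_mul ha, fB_succ,
      w_self, w_ne _ (th_ne_p hg).symm, ← h.bp p g hg, ← h.bh p g hg, oa, ob]
  · intro p g hg
    change cst (r.al * s.bp + r.be * s.bh) = _
    rw [cst_add (mul_nonneg ha n.bp) (mul_nonneg hb n.bh), cst_mul hb, cst_mul ha, fB_succ,
      w_self, w_ne _ (th_ne_p hg), ← h.bp p g hg, ← h.bh p g hg, oa, ob]
  · intro b a hba
    change cst (r.be * s.hh) = _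
    rw [cst_mul hb, fH_succ, ← h.hh b a hba, ob]
  · intro p g hg
    change cst (r.be * s.cc + r.al * s.bp) = _
    rw [cst_add (mul_nonneg hb n.cc) (mul_nonneg ha n.bp), cst_mul hb, cst_mul ha,
      fC_succ _ _ _ p g hg, ← h.cc p g hg, ← h.bp p g hg, oa, ob]
  · intro p g hg
    change cst (r.be * s.ee + s.ah) = _
    rw [cst_add (mul_nonneg hb n.ee) n.ah, cst_mul hb, fE_succ _ _ _ p g hg, ← h.ee p g hg,
      ← h.ah p g hg, ob]
  · intro p g hg
    change cst (r.be * s.ap + r.al * s.hh + r.ka * (s.cc + r.al * s.ee)) = _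
    have i1 : 0 ≤ r.al * s.ee := mul_nonneg ha n.ee
    rw [cst_add (add_nonneg (mul_nonneg hb n.ap) (mul_nonneg ha n.hh))
      (mul_nonneg hk (add_nonneg n.cc i1)), cst_add (mul_nonneg hb n.ap) (mul_nonneg ha n.hh),
      cst_mul hb, cst_mul ha, cst_mul hk, cst_add n.cc i1, cst_mul ha, fA_succ _ _ _ p g p hg,
      w_self, w_ne _ (th_ne_p hg).symm, ← h.ap p g hg, ← h.hh _ _ (th_ne_g hg), ← h.cc p g hg,
      ← h.ee p g hg, oa, ob, ok]
  · intro p g hg
    change cst (r.al * s.ap + r.be * s.hh + r.ka * (s.cc + r.al * s.ee)) = _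
    have i1 : 0 ≤ r.al * s.ee := mul_nonneg ha n.ee
    rw [cst_add (add_nonneg (mul_nonneg ha n.ap) (mul_nonneg hb n.hh))
      (mul_nonneg hk (add_nonneg n.cc i1)), cst_add (mul_nonneg ha n.ap) (mul_nonneg hb n.hh),
      cst_mul hb, cst_mul ha, cst_mul hk, cst_add n.cc i1, cst_mul ha,
      fA_succ _ _ _ p g (th p g) hg,
      w_self, w_ne _ (th_ne_p hg), ← h.ap p g hg, ← h.hh _ _ (th_ne_g hg), ← h.cc p g hg,
      ← h.ee p g hg, oa, ob, ok]
  · intro p g hg
    change cst (r.al * s.ap + r.al * s.hh + r.ka * (s.cc + r.al * s.ee)) = _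
    have i1 : 0 ≤ r.al * s.ee := mul_nonneg ha n.ee
    rw [cst_add (add_nonneg (mul_nonneg ha n.ap) (mul_nonneg ha n.hh))
      (mul_nonneg hk (add_nonneg n.cc i1)), cst_add (mul_nonneg ha n.ap) (mul_nonneg ha n.hh),
      cst_mul ha, cst_mul ha, cst_mul hk, cst_add n.cc i1, cst_mul ha, fA_succ _ _ _ p g g hg,
      w_ne _ hg, w_ne _ (th_ne_g hg).symm, ← h.ap p g hg, ← h.hh _ _ (th_ne_g hg),
      ← h.cc p g hg, ← h.ee p g hg, oa, ok]
  · intro p b hb'
    change cst ((r.al + r.be) * s.q) = _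
    rw [cst_mul (add_nonneg ha hb), cst_add ha hb, fQ_succ, ← h.q p _ (ne_one p).symm,
      ← h.q p _ (ne_two p).symm, ← oa, ← ob, ← add_mul]
    rcases cases12 hb' with e | e
    · rw [e, w_self, w_ne _ (ne_12 p), add_comm]
    · rw [e, w_self, w_ne _ (ne_12 p).symm]
  · intro p
    change cst (2 * r.al * s.q) = _
    rw [cst_mul (mul_nonneg zero_le_two ha), cst_mul zero_le_two, fQ_succ,
      ← h.q p _ (ne_one p).symm, ← h.q p _ (ne_two p).symm, w_ne _ (ne_one p),
      w_ne _ (ne_two p), oa, cst_two, two_mul, add_mul]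
  · intro p g hg
    exact hsum s.sp s.ap _ n.sp n.ap (h.sp p g hg) (h.ap p g hg)
  · intro p g hg
    exact hsum s.sh s.ah _ n.sh n.ah (h.sh p g hg) (h.ah p g hg)
  · intro p g hg
    exact hsum s.sg s.ag _ n.sg n.ag (h.sg p g hg) (h.ag p g hg)
  · intro p b hb'
    exact hsum s.sq s.q _ n.sq n.q (h.sq p b hb') (h.q p b hb')
  · intro p
    exact hsum s.sqp s.qp _ n.sqp n.qp (h.sqp p) (h.qp p)
  · intro b a hba
    exact hsum s.t s.hh _ n.t n.hh (h.t b a hba) (h.hh b a hba)

theorem inv_stt {z σ : ℚ} {r : Q3} (hz : 0 < z) (hσ : 1 ≤ σ) (ha : 0 ≤ r.al)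
    (hb : 0 ≤ r.be) (hk : 0 ≤ r.ka) (Y : ℕ) : Inv z σ r Y (stt Y z σ r) := by
  induction Y with
  | zero => exact inv_init z σ r hz hσ
  | succ Y ih =>
    have h := inv_next hz ha hb hk ih
    unfold stt at h ⊢
    rw [Function.iterate_succ_apply']
    exact h

theorem fl_le (x : ℚ) : fl x ≤ x := by
  unfold fl
  rw [div_le_iff₀ (by positivity)]
  exact Int.floor_le _

theorem fl_nonneg {x : ℚ} (h : 0 ≤ x) : 0 ≤ fl x := by
  unfold fl
  refine div_nonneg ?_ (by positivity)
  have : (0 : ℤ) ≤ ⌊x * 10 ^ 10⌋ := Int.floor_nonneg.2 (by positivity)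
  exact_mod_cast this

theorem psi_le {σ : ℝ≥0∞} (h : 1 ≤ σ) (a b : Fin 3) : psi σ a b ≤ σ := by
  unfold psi
  split_ifs
  · exact h
  · exact le_rfl

theorem one_le_psi {σ : ℝ≥0∞} (h : 1 ≤ σ) (a b : Fin 3) : 1 ≤ psi σ a b := by
  unfold psi
  split_ifs
  · exact le_rfl
  · exact h

end S74

open S74 in
/-- Row SUM. -/
theorem st_SUM : ST_SUM := by
  intro Y z σ r hz hσ ha hb hk
  have hI := inv_stt hz hσ ha hb hk Y
  obtain ⟨s, hs⟩ : ∃ s, s = stt Y z σ r := ⟨_, rfl⟩
  rw [← hs] at hI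
  have n := hI.nn
  have hσ0 : 0 < σ := by linarith
  have hst : stepQ Y z σ r = ⟨fl (min s.sp (min (s.sh / σ) (s.sg / σ))),
      fl (min s.sqp (s.sq / σ)), fl (min s.t (z + r.al * z * s.t) / σ)⟩ := by
    rw [hs]
    rfl
  have hσ1 : (1 : ℝ≥0∞) ≤ cst σ := by
    have := cst_mono hσ
    rwa [cst_one] at this
  have hA0 : 0 ≤ min s.sp (min (s.sh / σ) (s.sg / σ)) :=
    le_min n.sp (le_min (div_nonneg n.sh hσ0.le) (div_nonneg n.sg hσ0.le))
  have hB0 : 0 ≤ min s.sqp (s.sq / σ) := le_min n.sqp (div_nonneg n.sq hσ0.le)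
  have hK0 : 0 ≤ min s.t (z + r.al * z * s.t) / σ := by
    have h1 := n.t
    exact div_nonneg (le_min h1 (by positivity)) hσ0.le
  rw [hst]
  refine ⟨fl_nonneg hA0, fl_nonneg hB0, fl_nonneg hK0, ?_, ?_, ?_⟩
  · intro p g b hg
    change cst (fl (min s.sp (min (s.sh / σ) (s.sg / σ)))) * psi (cst σ) p b ≤
      ∑' y : List Bool, cst z ^ (y.length + 1) * fA r.om (cst σ) p g b y
    refine le_trans ?_ (S_le (cst z) Y (fA r.om (cst σ) p g b))
    have key : ∀ x : ℚ, min s.sp (min (s.sh / σ) (s.sg / σ)) ≤ x / σ →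
        cst (fl (min s.sp (min (s.sh / σ) (s.sg / σ)))) * cst σ ≤ cst x := by
      intro x hx
      rw [← cst_mul (fl_nonneg hA0)]
      refine cst_mono ?_
      rw [← le_div_iff₀ hσ0]
      exact (fl_le _).trans hx
    rcases cases3 hg b with e | e | e
    · rw [e, psi_self, mul_one, ← hI.sp p g hg]
      exact cst_mono ((fl_le _).trans (min_le_left _ _))
    · rw [e, psi_ne _ hg, ← hI.sg p g hg]
      exact key _ ((min_le_right _ _).trans (min_le_right _ _))
    · rw [e, psi_ne _ (th_ne_p hg), ← hI.sh p g hg]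
      exact key _ ((min_le_right _ _).trans (min_le_left _ _))
  · intro p b
    change cst (fl (min s.sqp (s.sq / σ))) * psi (cst σ) p b ≤
      ∑' y : List Bool, cst z ^ (y.length + 1) * fQ r.om (cst σ) p b y
    refine le_trans ?_ (S_le (cst z) Y (fQ r.om (cst σ) p b))
    by_cases e : b = p
    · rw [e, psi_self, mul_one, ← hI.sqp p]
      exact cst_mono ((fl_le _).trans (min_le_left _ _))
    · rw [psi_ne _ e, ← hI.sq p b e, ← cst_mul (fl_nonneg hB0)]
      refine cst_mono ?_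
      rw [← le_div_iff₀ hσ0]
      exact (fl_le _).trans (min_le_right _ _)
  · intro s' a c b hca
    change cst (fl (min s.t (z + r.al * z * s.t) / σ)) * psi (cst σ) s' b ≤
      ∑' j : ℕ, cst z ^ (j + 1) * ValC r.om b (fix (List.replicate j c)) (psi (cst σ) a)
    have h1 : cst (fl (min s.t (z + r.al * z * s.t) / σ)) * psi (cst σ) s' b ≤
        cst (min s.t (z + r.al * z * s.t)) := by
      refine (mul_le_mul_right (psi_le hσ1 s' b) _).trans ?_
      rw [← cst_mul (fl_nonneg hK0)]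
      refine cst_mono ?_
      rw [← le_div_iff₀ hσ0]
      exact fl_le _
    refine h1.trans ?_
    by_cases e : b = c
    · rw [e]
      refine (cst_mono (min_le_left _ _)).trans ?_
      rw [hI.t c a hca]
      exact ENNReal.sum_le_tsum _
    · refine (cst_mono (min_le_right _ _)).trans ?_
      refine le_trans ?_ (ENNReal.sum_le_tsum (Finset.range (Y + 1)))
      rw [Finset.sum_range_succ']
      have h2 := n.t
      rw [cst_add hz.le (by positivity), cst_mul (by positivity), cst_mul ha, hI.t c a hca,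
        Finset.mul_sum, add_comm (cst z) _]
      refine add_le_add (Finset.sum_le_sum fun j _ => ?_) ?_
      rotate_left
      · rw [zero_add, pow_one]
        have h3 : ValC r.om b (fix (List.replicate 0 c)) (psi (cst σ) a) = psi (cst σ) a b := rfl
        rw [h3]
        exact le_mul_of_one_le_right bot_le (one_le_psi hσ1 a b)
      · have h3 : ValC r.om b (fix (List.replicate (j + 1) c)) (psi (cst σ) a) =
            w r.om b c * fH r.om (cst σ) c a j := rfl
        rw [h3, w_ne _ e]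
        have oa : r.om.al = cst r.al := rfl
        rw [oa, pow_succ (cst z) (j + 1)]
        exact le_of_eq (by ring)

end SHQ
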